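import Pool.Agent.Helper98.CP.Basic

set_option autoImplicit false

namespace Pool.Agent.CP

open Stage

variable {G V : Type*} [Group G] [AddCommGroup V] [Module ℚ V]

/-! ### OA-6: spanning certificate for kind `K` -/

namespace OA6

theorem op_nil (S : Stage G V) : S.op [] = 0 := by simp [Stage.op]

theorem op_cons (S : Stage G V) (p : ℚ × G) (l : List (ℚ × G)) :
    S.op (p :: l) = p.1 • S.ρ p.2 + S.op l := by simp [Stage.op]

/-- operators with coefficients on a list are the elements of the span -/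
theorem mem_span_iff (S : Stage G V) (a : List G) (X : V →ₗ[ℚ] V) :
    X ∈ Submodule.span ℚ (S.ρ '' {g | g ∈ a}) ↔
      ∃ q : List ℚ, q.length = a.length ∧ X = S.op (q.zip a) := by
  induction a generalizing X with
  | nil =>
    have e : (S.ρ '' {g | g ∈ ([] : List G)}) = ∅ := by simp
    rw [e, Submodule.span_empty, Submodule.mem_bot]
    constructor
    · intro h
      exact ⟨[], rfl, by rw [h]; simp [op_nil]⟩
    · rintro ⟨q, hq, h⟩
      have : q = [] := List.length_eq_zero_iff.1 hq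
      subst this
      rw [h]; simp [op_nil]
  | cons g a ih =>
    have e : (S.ρ '' {h | h ∈ g :: a}) = insert (S.ρ g) (S.ρ '' {h | h ∈ a}) := by
      ext Y
      simp only [Set.mem_image, Set.mem_ofPred_eq, List.mem_cons, Set.mem_insert_iff]
      constructor
      · rintro ⟨h, hh | hh, rfl⟩
        · left; rw [hh]
        · right; exact ⟨h, hh, rfl⟩
      · rintro (rfl | ⟨h, hh, rfl⟩)
        · exact ⟨g, Or.inl rfl, rfl⟩
        · exact ⟨h, Or.inr hh, rfl⟩
    rw [e, Submodule.mem_span_insert]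
    constructor
    · rintro ⟨c, Y, hY, rfl⟩
      obtain ⟨q, hq, rfl⟩ := (ih Y).1 hY
      refine ⟨c :: q, by simp [hq], ?_⟩
      rw [List.zip_cons_cons, op_cons]
    · rintro ⟨q, hq, rfl⟩
      cases q with
      | nil => simp at hq
      | cons c q =>
        refine ⟨c, S.op (q.zip a), (ih _).2 ⟨q, by simpa using hq, rfl⟩, ?_⟩
        rw [List.zip_cons_cons, op_cons]

theorem op_mem_span (S : Stage G V) (H : Set G) (l : List (ℚ × G)) (hl : ∀ p ∈ l, p.2 ∈ H) :
    S.op l ∈ Submodule.span ℚ (S.ρ '' H) := by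
  induction l with
  | nil => rw [op_nil]; exact Submodule.zero_mem _
  | cons p l ih =>
    rw [op_cons]
    refine Submodule.add_mem _ (Submodule.smul_mem _ _ (Submodule.subset_span
      ⟨p.2, hl p (List.mem_cons_self), rfl⟩)) (ih fun p' hp' => hl p' (List.mem_cons_of_mem _ hp'))

omit [Group G] in
theorem zip_mem {H : Set G} {a : List G} (ha : ∀ g ∈ a, g ∈ H) (q : List ℚ) :
    ∀ p ∈ q.zip a, p.2 ∈ H := by
  rintro ⟨c, g⟩ hp
  exact ha g (List.of_mem_zip hp).2

theorem span_U {S : Stage G V} {H : Set G} {X : V →ₗ[ℚ] V}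
    (hX : X ∈ Submodule.span ℚ (S.ρ '' H)) {v : V} (hv : v ∈ S.U) : X v ∈ S.U := by
  induction hX using Submodule.span_induction with
  | mem Y hY => obtain ⟨g, _, rfl⟩ := hY; exact S.invU g v hv
  | zero => simp
  | add Y Z _ _ hY hZ => exact S.U.add_mem hY hZ
  | smul c Y _ hY => exact S.U.smul_mem _ hY

/-- operators agreeing on `U/U'` with an element of the span of `ρ g`, `g ∈ a` -/
def W (S : Stage G V) (a : List G) : Submodule ℚ (V →ₗ[ℚ] V) where
  carrier := {X | ∃ Y ∈ Submodule.span ℚ (S.ρ '' {g | g ∈ a}), ∀ v ∈ S.U, X v - Y v ∈ S.U'}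
  zero_mem' := ⟨0, Submodule.zero_mem _, fun v _ => by simp⟩
  add_mem' := by
    rintro X X' ⟨Y, hY, h⟩ ⟨Y', hY', h'⟩
    refine ⟨Y + Y', Submodule.add_mem _ hY hY', fun v hv => ?_⟩
    have := S.U'.add_mem (h v hv) (h' v hv)
    have e : (X + X') v - (Y + Y') v = X v - Y v + (X' v - Y' v) := by
      simp only [LinearMap.add_apply]; abel
    rwa [e]
  smul_mem' := by
    rintro c X ⟨Y, hY, h⟩
    refine ⟨c • Y, Submodule.smul_mem _ _ hY, fun v hv => ?_⟩
    have := S.U'.smul_mem c (h v hv)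
    have e : (c • X) v - (c • Y) v = c • (X v - Y v) := by
      simp only [LinearMap.smul_apply, smul_sub]
    rwa [e]

theorem mem_W {S : Stage G V} {a : List G} {X : V →ₗ[ℚ] V} :
    X ∈ W S a ↔ ∃ Y ∈ Submodule.span ℚ (S.ρ '' {g | g ∈ a}), ∀ v ∈ S.U, X v - Y v ∈ S.U' :=
  Iff.rfl

theorem mem_W' {S : Stage G V} {a : List G} {X : V →ₗ[ℚ] V} :
    X ∈ W S a ↔ ∃ q : List ℚ, q.length = a.length ∧
      ∀ v ∈ S.U, X v - S.op (q.zip a) v ∈ S.U' := by
  rw [mem_W]
  constructor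
  · rintro ⟨Y, hY, h⟩
    obtain ⟨q, hq, rfl⟩ := (mem_span_iff S a Y).1 hY
    exact ⟨q, hq, h⟩
  · rintro ⟨q, hq, h⟩
    exact ⟨_, (mem_span_iff S a _).2 ⟨q, hq, rfl⟩, h⟩

theorem W_congr {S : Stage G V} {a : List G} {X X' : V →ₗ[ℚ] V} (hX : X ∈ W S a)
    (h : ∀ v ∈ S.U, X' v - X v ∈ S.U') : X' ∈ W S a := by
  obtain ⟨Y, hY, h'⟩ := mem_W.1 hX
  refine mem_W.2 ⟨Y, hY, fun v hv => ?_⟩
  have := S.U'.add_mem (h v hv) (h' v hv)
  rwa [sub_add_sub_cancel] at this

/-- `g` maps `W` into itself as soon as this holds for the operators `ρ h`, `h ∈ a` -/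
theorem comp_mem_W {S : Stage G V} {a : List G} {s : G}
    (hs : ∀ g ∈ a, S.ρ (s * g) ∈ W S a) {X : V →ₗ[ℚ] V} (hX : X ∈ W S a) :
    S.ρ s ∘ₗ X ∈ W S a := by
  obtain ⟨Y, hY, h⟩ := mem_W.1 hX
  have h1 : S.ρ s ∘ₗ Y ∈ W S a := by
    clear h
    induction hY using Submodule.span_induction with
    | mem Z hZ =>
      obtain ⟨g, hg, rfl⟩ := hZ
      have := hs g hg
      rwa [map_mul] at this
    | zero => rw [LinearMap.comp_zero]; exact Submodule.zero_mem _
    | add Y Z _ _ hY hZ => rw [LinearMap.comp_add]; exact Submodule.add_mem _ hY hZ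
    | smul c Y _ hY => rw [LinearMap.comp_smul]; exact Submodule.smul_mem _ _ hY
  refine W_congr h1 fun v hv => ?_
  have := S.invU' s _ (h v hv)
  rwa [map_sub] at this

/-- the subgroup of elements preserving `W` -/
def stab (S : Stage G V) (a : List G) : Subgroup G where
  carrier := {g | (∀ X ∈ W S a, S.ρ g ∘ₗ X ∈ W S a) ∧ (∀ X ∈ W S a, S.ρ g⁻¹ ∘ₗ X ∈ W S a)}
  one_mem' := by
    constructor <;> intro X hX
    · rw [map_one, Module.End.one_eq_id, LinearMap.id_comp]; exact hX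
    · rw [inv_one, map_one, Module.End.one_eq_id, LinearMap.id_comp]; exact hX
  mul_mem' := by
    rintro g h ⟨hg, hg'⟩ ⟨hh, hh'⟩
    constructor
    · intro X hX
      have := hg _ (hh X hX)
      rwa [← LinearMap.comp_assoc, ← Module.End.mul_eq_comp (S.ρ g), ← map_mul] at this
    · intro X hX
      have := hh' _ (hg' X hX)
      rwa [← LinearMap.comp_assoc, ← Module.End.mul_eq_comp (S.ρ h⁻¹), ← map_mul,
        ← mul_inv_rev] at this
  inv_mem' := by
    rintro g ⟨hg, hg'⟩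
    exact ⟨hg', by simpa using hg⟩

theorem N_le_stab (S : Stage G V) (a : List G) : S.N ≤ stab S a := by
  have key : ∀ ν ∈ S.N, ∀ X ∈ W S a, S.ρ ν ∘ₗ X ∈ W S a := by
    intro ν hν X hX
    refine W_congr hX fun v hv => ?_
    obtain ⟨Y, hY, h⟩ := mem_W.1 hX
    have h1 : X v ∈ S.U := by
      have := S.U.add_mem (S.U'_le (h v hv)) (span_U hY hv)
      simpa using this
    exact S.triv_of_mem_N hν _ h1
  exact fun ν hν => ⟨key ν hν, key _ (S.N.inv_mem hν)⟩

end OA6

open OA6 in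
/-- the nonexistence of a solution operator has a finite certificate: a list `a` spanning `ρ (C x)` on
`U/U'`, closed under multiplication by generators -/
theorem no_sol_iff [FiniteDimensional ℚ V] {S : Stage G V} {x z : V} {Λ : List G} (hΛ : S.Gen x Λ)
    (hz : z ∈ S.U) {g₀ : G} (hg₀ : g₀ ∈ S.C x) :
    (¬ ∃ l : List (ℚ × G), S.Sol x z g₀ l) ↔
    ∃ a : List G, (∀ g ∈ a, g ∈ S.C x) ∧ (1 : G) ∈ a ∧
      (∀ g ∈ a, ∀ s ∈ Λ, ∃ q : List ℚ, q.length = a.length ∧
        ∀ v ∈ S.U, S.ρ (s * g) v - S.op (q.zip a) v ∈ S.U') ∧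
      (∀ g ∈ a, ∀ s ∈ Λ, ∃ q : List ℚ, q.length = a.length ∧
        ∀ v ∈ S.U, S.ρ (s⁻¹ * g) v - S.op (q.zip a) v ∈ S.U') ∧
      ¬ ∃ q : List ℚ, q.length = a.length ∧
        S.NQ x (S.op (q.zip a) (S.d x g₀) - (S.d x g₀ + (S.ρ g₀ z - z))) := by
  have _ := hz
  classical
  constructor
  · intro hno
    have hfg : (Submodule.span ℚ (S.ρ '' (S.C x : Set G))).FG := IsNoetherian.noetherian _
    obtain ⟨F, hF, hspan⟩ :=
      (Submodule.fg_span_iff_fg_span_finset_subset (S.ρ '' (S.C x : Set G))).1 hfg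
    obtain ⟨F', hF', hFF'⟩ := Finset.subset_set_image_iff.1 hF
    have ha : ∀ g ∈ (1 : G) :: F'.toList, g ∈ S.C x := by
      intro g hg
      rcases List.mem_cons.1 hg with rfl | hg
      · exact (S.C x).one_mem
      · exact hF' (Finset.mem_coe.2 (Finset.mem_toList.1 hg))
    have hle : Submodule.span ℚ (S.ρ '' (S.C x : Set G))
        ≤ Submodule.span ℚ (S.ρ '' {g | g ∈ (1 : G) :: F'.toList}) := by
      rw [hspan]
      refine Submodule.span_mono ?_
      intro Y hY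
      rw [← hFF'] at hY
      obtain ⟨g, hg, rfl⟩ := Finset.mem_image.1 (Finset.mem_coe.1 hY)
      exact ⟨g, List.mem_cons_of_mem _ (Finset.mem_toList.2 hg), rfl⟩
    have hcl : ∀ g ∈ S.C x, ∃ q : List ℚ, q.length = ((1 : G) :: F'.toList).length ∧
        ∀ v ∈ S.U, S.ρ g v - S.op (q.zip ((1 : G) :: F'.toList)) v ∈ S.U' := by
      intro g hg
      obtain ⟨q, hq, h⟩ := (mem_span_iff S _ _).1 (hle (Submodule.subset_span ⟨g, hg, rfl⟩))
      exact ⟨q, hq, fun v _ => by rw [← h]; simp⟩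
    refine ⟨(1 : G) :: F'.toList, ha, List.mem_cons_self, ?_, ?_, ?_⟩
    · intro g hg s hs
      exact hcl _ ((S.C x).mul_mem (hΛ.1 s hs) (ha g hg))
    · intro g hg s hs
      exact hcl _ ((S.C x).mul_mem ((S.C x).inv_mem (hΛ.1 s hs)) (ha g hg))
    · rintro ⟨q, _, h⟩
      exact hno ⟨_, zip_mem (H := (S.C x : Set G)) ha q, h⟩
  · rintro ⟨a, haC, h1, hs, hs', hno⟩ ⟨l, hl, hsol⟩
    apply hno
    have hstab : S.cl Λ ≤ stab S a := by
      refine cl_le ?_ (N_le_stab S a)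
      intro s hsΛ
      refine ⟨fun X hX => comp_mem_W (fun g hg => mem_W'.2 (hs g hg s hsΛ)) hX,
        fun X hX => comp_mem_W (fun g hg => mem_W'.2 (hs' g hg s hsΛ)) hX⟩
    have hC : S.C x ≤ stab S a := hΛ.2.trans hstab
    have hone : S.ρ 1 ∈ W S a :=
      mem_W.2 ⟨S.ρ 1, Submodule.subset_span ⟨1, h1, rfl⟩, fun v _ => by simp⟩
    have hρ : ∀ g ∈ S.C x, S.ρ g ∈ W S a := by
      intro g hg
      have := (hC hg).1 _ hone
      rwa [← Module.End.mul_eq_comp, ← map_mul, mul_one] at this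
    have hop : S.op l ∈ W S a := by
      have h2 := op_mem_span S (S.C x : Set G) l hl
      refine (Submodule.span_le.2 ?_) h2
      rintro _ ⟨g, hg, rfl⟩
      exact hρ g hg
    obtain ⟨q, hq, h⟩ := mem_W'.1 hop
    refine ⟨q, hq, ?_⟩
    have h3 : S.NQ x (S.op l (S.d x g₀) - S.op (q.zip a) (S.d x g₀)) := NQ.of_mem (h _ hg₀)
    have h4 := hsol.sub h3
    have e : S.op l (S.d x g₀) - (S.d x g₀ + (S.ρ g₀ z - z))
        - (S.op l (S.d x g₀) - S.op (q.zip a) (S.d x g₀))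
        = S.op (q.zip a) (S.d x g₀) - (S.d x g₀ + (S.ρ g₀ z - z)) := by abel
    rwa [e] at h4

end Pool.Agent.CP
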